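import Pool.Agent.Helper12.RQ.Polar

/-!
# Volumes of the level sets of a star function
-/

set_option autoImplicit false

open MeasureTheory Set Filter Topology Metric

open scoped ENNReal NNReal ContDiff

namespace Pool.Agent.Helper7.RQ

open Pool.Agent.Helper12.RQ

/-- the radial homeomorphism attached to a star function -/
noncomputable def psi {n : ℕ} (N : E n → ℝ) (y : E n) : E n := (N y * ‖y‖⁻¹) • y

section

variable {n : ℕ} {c l : ℝ} {N : E n → ℝ}

theorem star_lower (h : IsStar c l N) (y : E n) : c * ‖y‖ ≤ N y := by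
  have := h.slope y 0 ⟨le_rfl, zero_le_one⟩
  rw [zero_smul, h.zero] at this
  linarith

theorem star_upper (h : IsStar c l N) (y : E n) : N y ≤ l * ‖y‖ := by
  have := h.lip y 0
  rw [h.zero, sub_zero, sub_zero] at this
  exact (le_abs_self _).trans this

theorem star_nonneg (h : IsStar c l N) (y : E n) : 0 ≤ N y :=
  (mul_nonneg h.cpos.le (norm_nonneg y)).trans (star_lower h y)

theorem norm_psi (h : IsStar c l N) (y : E n) : ‖psi N y‖ = N y := by
  unfold psi
  rcases eq_or_ne y 0 with rfl | hy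
  · simp [h.zero]
  · have hy' : ‖y‖ ≠ 0 := norm_ne_zero_iff.2 hy
    rw [norm_smul, norm_mul, norm_inv, norm_norm, Real.norm_of_nonneg (star_nonneg h y)]
    field_simp

/-- the basic inequality for directions -/
theorem dir_le {F : Type*} [NormedAddCommGroup F] [NormedSpace ℝ F] (y z : F) :
    ‖z‖ * ‖(‖y‖⁻¹ • y) - (‖z‖⁻¹ • z)‖ ≤ 2 * ‖y - z‖ := by
  rcases eq_or_ne z 0 with rfl | hz
  · simp
  rcases eq_or_ne y 0 with rfl | hy
  · have hz' : ‖z‖ ≠ 0 := norm_ne_zero_iff.2 hz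
    rw [smul_zero, zero_sub, norm_neg, norm_smul, norm_inv, norm_norm, zero_sub, norm_neg,
      inv_mul_cancel₀ hz']
    have := norm_nonneg z
    linarith
  · have hz' : ‖z‖ ≠ 0 := norm_ne_zero_iff.2 hz
    have hy' : ‖y‖ ≠ 0 := norm_ne_zero_iff.2 hy
    have h1 : ‖z‖ * ‖(‖y‖⁻¹ • y) - (‖z‖⁻¹ • z)‖ = ‖‖z‖ • ((‖y‖⁻¹ • y) - (‖z‖⁻¹ • z))‖ := by
      rw [norm_smul, norm_norm]
    rw [h1]
    have h2 : ‖z‖ • ((‖y‖⁻¹ • y) - (‖z‖⁻¹ • z)) = ((‖z‖ - ‖y‖) * ‖y‖⁻¹) • y + (y - z) := by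
      rw [smul_sub, smul_smul, smul_smul, mul_inv_cancel₀ hz', one_smul, sub_mul,
        mul_inv_cancel₀ hy', sub_smul, one_smul]
      abel
    rw [h2]
    refine (norm_add_le _ _).trans ?_
    rw [norm_smul, norm_mul, norm_inv, norm_norm, mul_assoc, inv_mul_cancel₀ hy', mul_one,
      Real.norm_eq_abs]
    have h3 : |‖z‖ - ‖y‖| ≤ ‖z - y‖ := abs_norm_sub_norm_le z y
    rw [norm_sub_rev] at h3
    linarith

theorem psi_eq (N : E n → ℝ) (y : E n) : psi N y = N y • (‖y‖⁻¹ • y) := by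
  rw [psi, smul_smul]

theorem psi_sub (h : IsStar c l N) (y z : E n) :
    ‖psi N y - psi N z‖ ≤ 3 * l * ‖y - z‖ := by
  rcases eq_or_ne y 0 with rfl | hy
  · have h0 : psi N 0 = 0 := by simp [psi]
    rw [h0, zero_sub, norm_neg, norm_psi h, zero_sub, norm_neg]
    have := star_upper h z
    have h2 := star_nonneg h z
    linarith
  · have hy' : ‖y‖ ≠ 0 := norm_ne_zero_iff.2 hy
    have h1 : psi N y - psi N z =
        (N y - N z) • (‖y‖⁻¹ • y) + N z • ((‖y‖⁻¹ • y) - (‖z‖⁻¹ • z)) := by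
      rw [psi_eq, psi_eq, sub_smul, smul_sub]
      abel
    rw [h1]
    refine (norm_add_le _ _).trans ?_
    rw [norm_smul, norm_smul, norm_smul, norm_inv, norm_norm, inv_mul_cancel₀ hy', mul_one,
      Real.norm_eq_abs, Real.norm_of_nonneg (star_nonneg h z)]
    have h2 := h.lip y z
    have h3 : N z * ‖(‖y‖⁻¹ • y) - (‖z‖⁻¹ • z)‖ ≤ l * (‖z‖ * ‖(‖y‖⁻¹ • y) - (‖z‖⁻¹ • z)‖) := by
      rw [← mul_assoc]
      exact mul_le_mul_of_nonneg_right (star_upper h z) (norm_nonneg _)
    have hl : 0 ≤ l := by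
      have h4 := star_upper h y
      have h5 := star_nonneg h y
      have h6 : 0 < ‖y‖ := norm_pos_iff.2 hy
      by_contra h7
      push Not at h7
      have := mul_neg_of_neg_of_pos h7 h6
      have h8 := star_lower h y
      have := mul_pos h.cpos h6
      linarith
    have h4 : l * (‖z‖ * ‖(‖y‖⁻¹ • y) - (‖z‖⁻¹ • z)‖) ≤ l * (2 * ‖y - z‖) :=
      mul_le_mul_of_nonneg_left (dir_le y z) hl
    linarith

/-- the antilipschitz estimate, for `‖z‖ ≤ ‖y‖` -/
theorem psi_anti_aux (h : IsStar c l N) (hl : 0 ≤ l) (y z : E n) (hyz : ‖z‖ ≤ ‖y‖) :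
    ‖y - z‖ ≤ (3 / c + 2 * l / c ^ 2) * ‖psi N y - psi N z‖ := by
  have hc := h.cpos
  rcases eq_or_ne z 0 with rfl | hz
  · have h0 : psi N 0 = 0 := by simp [psi]
    rw [h0, sub_zero, sub_zero, norm_psi h]
    have h1 := star_lower h y
    have h2 := star_nonneg h y
    have h3 : ‖y‖ ≤ N y / c := by
      rw [le_div_iff₀ hc]
      linarith
    have h4 : 0 ≤ (2 / c + 2 * l / c ^ 2) * N y := by positivity
    have h5 : (3 / c + 2 * l / c ^ 2) * N y = N y / c + (2 / c + 2 * l / c ^ 2) * N y := by ring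
    linarith
  · have hz' : ‖z‖ ≠ 0 := norm_ne_zero_iff.2 hz
    have hzp : 0 < ‖z‖ := norm_pos_iff.2 hz
    have hyp : 0 < ‖y‖ := lt_of_lt_of_le hzp hyz
    have hy' : ‖y‖ ≠ 0 := hyp.ne'
    set D := ‖psi N y - psi N z‖ with hD
    set a : E n := ‖y‖⁻¹ • y with ha
    set b : E n := ‖z‖⁻¹ • z with hb
    have hna : ‖a‖ = 1 := by
      rw [ha, norm_smul, norm_inv, norm_norm, inv_mul_cancel₀ hy']
    have hnb : ‖b‖ = 1 := by
      rw [hb, norm_smul, norm_inv, norm_norm, inv_mul_cancel₀ hz']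
    have hya : y = ‖y‖ • a := by
      rw [ha, smul_smul, mul_inv_cancel₀ hy', one_smul]
    have hzb : z = ‖z‖ • b := by
      rw [hb, smul_smul, mul_inv_cancel₀ hz', one_smul]
    -- (1) `|N y - N z| ≤ D`
    have h1 : |N y - N z| ≤ D := by
      have := abs_norm_sub_norm_le (psi N y) (psi N z)
      rwa [norm_psi h, norm_psi h] at this
    -- (2) `c t |a - b| ≤ 2 D`
    have h2 : c * (‖z‖ * ‖a - b‖) ≤ 2 * D := by
      have e1 : N z • (a - b) = (psi N y - psi N z) - (N y - N z) • a := by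
        rw [psi_eq, psi_eq, sub_smul, smul_sub]
        abel
      have e2 : N z * ‖a - b‖ ≤ D + |N y - N z| := by
        have : N z * ‖a - b‖ = ‖N z • (a - b)‖ := by
          rw [norm_smul, Real.norm_of_nonneg (star_nonneg h z)]
        rw [this, e1]
        refine (norm_sub_le _ _).trans ?_
        rw [norm_smul, hna, mul_one, Real.norm_eq_abs]
      have e3 : c * (‖z‖ * ‖a - b‖) ≤ N z * ‖a - b‖ := by
        rw [← mul_assoc]
        exact mul_le_mul_of_nonneg_right (star_lower h z) (norm_nonneg _)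
      linarith
    -- (3) `c (s - t) ≤ D + l t |a - b|`
    have h3 : c * (‖y‖ - ‖z‖) ≤ D + l * (‖z‖ * ‖a - b‖) := by
      have ht : ‖z‖ * ‖y‖⁻¹ ∈ Icc (0 : ℝ) 1 := by
        refine ⟨by positivity, ?_⟩
        rw [← div_eq_mul_inv, div_le_one hyp]
        exact hyz
      have e1 := h.slope y _ ht
      have e2 : (‖z‖ * ‖y‖⁻¹) • y = ‖z‖ • a := by
        rw [ha, smul_smul]
      have e3 : c * (1 - ‖z‖ * ‖y‖⁻¹) * ‖y‖ = c * (‖y‖ - ‖z‖) := by
        field_simp
      rw [e2, e3] at e1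
      have e4 := h.lip (‖z‖ • a) z
      have e5 : ‖‖z‖ • a - z‖ = ‖z‖ * ‖a - b‖ := by
        conv_lhs => rw [hzb]
        rw [norm_smul, norm_norm, hnb, mul_one, ← smul_sub, norm_smul, norm_norm]
      rw [e5] at e4
      have e6 := abs_le.1 e4
      have e7 := abs_le.1 h1
      linarith [e6.1, e6.2, e7.1, e7.2]
    -- conclusion
    have h4 : ‖y - z‖ ≤ (‖y‖ - ‖z‖) + ‖z‖ * ‖a - b‖ := by
      have e1 : y - z = (‖y‖ - ‖z‖) • a + ‖z‖ • (a - b) := by
        rw [sub_smul, smul_sub, ← hya, ← hzb]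
        abel
      conv_lhs => rw [e1]
      refine (norm_add_le _ _).trans ?_
      have e2 : ‖(‖y‖ - ‖z‖) • a‖ = ‖y‖ - ‖z‖ := by
        rw [norm_smul (‖y‖ - ‖z‖) a, hna, mul_one, Real.norm_of_nonneg (by linarith)]
      have e3 : ‖‖z‖ • (a - b)‖ = ‖z‖ * ‖a - b‖ := by
        rw [norm_smul, norm_norm]
      rw [e2, e3]
    have hD0 : 0 ≤ D := norm_nonneg _
    set q := ‖z‖ * ‖a - b‖ with hq
    have h5 : q ≤ 2 * D / c := by
      rw [le_div_iff₀ hc]
      linarith
    have h6 : ‖y‖ - ‖z‖ ≤ (D + l * (2 * D / c)) / c := by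
      rw [le_div_iff₀ hc]
      have : l * q ≤ l * (2 * D / c) := mul_le_mul_of_nonneg_left h5 hl
      linarith
    have h7 : (3 / c + 2 * l / c ^ 2) * D = (D + l * (2 * D / c)) / c + 2 * D / c := by
      field_simp
      ring
    rw [h7]
    linarith

theorem psi_anti (h : IsStar c l N) (hl : 0 ≤ l) (y z : E n) :
    ‖y - z‖ ≤ (3 / c + 2 * l / c ^ 2) * ‖psi N y - psi N z‖ := by
  rcases le_total ‖z‖ ‖y‖ with hyz | hyz
  · exact psi_anti_aux h hl y z hyz
  · rw [norm_sub_rev y z, norm_sub_rev (psi N y)]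
    exact psi_anti_aux h hl z y hyz

theorem star_cont (h : IsStar c l N) : Continuous N := by
  have : LipschitzWith (Real.toNNReal l) N := by
    refine LipschitzWith.of_dist_le_mul fun y z => ?_
    rw [Real.dist_eq, dist_eq_norm]
    refine (h.lip y z).trans ?_
    exact mul_le_mul_of_nonneg_right (Real.le_coe_toNNReal l) (norm_nonneg _)
  exact this.continuous

/-- surjectivity of `psi` -/
theorem psi_surj (h : IsStar c l N) (x : E n) : ∃ y, psi N y = x := by
  rcases eq_or_ne x 0 with rfl | hx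
  · exact ⟨0, by simp [psi]⟩
  have hx0 : 0 < ‖x‖ := norm_pos_iff.2 hx
  have hx' : ‖x‖ ≠ 0 := hx0.ne'
  set u : E n := ‖x‖⁻¹ • x with hu
  have hnu : ‖u‖ = 1 := by
    rw [hu, norm_smul, norm_inv, norm_norm, inv_mul_cancel₀ hx']
  have hcont : Continuous fun s : ℝ => N (s • u) := (star_cont h).comp (by fun_prop)
  have hc := h.cpos
  have hmem : ‖x‖ ∈ Icc (N ((0 : ℝ) • u)) (N ((‖x‖ / c) • u)) := by
    constructor
    · rw [zero_smul, h.zero]
      exact hx0.le
    · have := star_lower h ((‖x‖ / c) • u)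
      rw [norm_smul, hnu, mul_one, Real.norm_of_nonneg (by positivity),
        mul_div_cancel₀ _ hc.ne'] at this
      exact this
  obtain ⟨s, hs, hs2⟩ := intermediate_value_Icc (div_nonneg hx0.le hc.le) hcont.continuousOn hmem
  have hs0 : 0 < s := by
    rcases hs.1.lt_or_eq with hlt | heq
    · exact hlt
    · exfalso
      simp only at hs2
      rw [← heq, zero_smul, h.zero] at hs2
      exact hx' hs2.symm
  refine ⟨s • u, ?_⟩
  simp only at hs2
  rw [psi_eq, hs2, norm_smul, hnu, mul_one, Real.norm_of_nonneg hs0.le, smul_smul s⁻¹,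
    inv_mul_cancel₀ hs0.ne', one_smul, hu, smul_smul, mul_inv_cancel₀ hx', one_smul]

theorem preim_eq (h : IsStar c l N) (B : Set ℝ) : N ⁻¹' B = psi N ⁻¹' {x | ‖x‖ ∈ B} := by
  ext y
  simp [norm_psi h]

end

/-- volume is a multiple of the Hausdorff measure -/
theorem vol_eq (n : ℕ) : ∃ k : ℝ≥0, (volume : Measure (E n)) =
    (k : ℝ≥0∞) • Measure.hausdorffMeasure (X := E n) (n : ℝ) := by
  have hfr : Module.finrank ℝ (E n) = n := by simp
  have hH : Measure.IsAddHaarMeasure (G := E n) (Measure.hausdorffMeasure (X := E n) (n : ℝ)) := by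
    have := MeasureTheory.isAddHaarMeasure_hausdorffMeasure (E := E n)
    rwa [hfr] at this
  exact ⟨_, Measure.isAddLeftInvariant_eq_smul (volume : Measure (E n))
    (Measure.hausdorffMeasure (X := E n) (n : ℝ))⟩

/-- Lipschitz images and volume -/
theorem vol_image_le {n : ℕ} {K : ℝ≥0} {f : E n → E n} (hf : LipschitzWith K f) (S : Set (E n)) :
    volume (f '' S) ≤ (K : ℝ≥0∞) ^ n * volume S := by
  obtain ⟨k, hk⟩ := vol_eq n
  rw [hk, Measure.smul_apply, Measure.smul_apply, smul_eq_mul, smul_eq_mul, mul_left_comm]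
  have := hf.hausdorffMeasure_image_le (d := (n : ℝ)) (by positivity) S
  rw [ENNReal.rpow_natCast] at this
  exact mul_le_mul_right this _

/-- antilipschitz preimages and volume -/
theorem vol_preimage_le {n : ℕ} {K : ℝ≥0} {f : E n → E n} (hf : AntilipschitzWith K f)
    (S : Set (E n)) : volume (f ⁻¹' S) ≤ (K : ℝ≥0∞) ^ n * volume S := by
  obtain ⟨k, hk⟩ := vol_eq n
  rw [hk, Measure.smul_apply, Measure.smul_apply, smul_eq_mul, smul_eq_mul, mul_left_comm]
  have := hf.hausdorffMeasure_preimage_le (d := (n : ℝ)) (by positivity) S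
  rw [ENNReal.rpow_natCast] at this
  exact mul_le_mul_right this _

/-- volumes of the level sets of a star function -/
theorem volc : StmtVOLC := by
  intro n c l N hn h
  have hc := h.cpos
  have hn1 : 1 ≤ n := by omega
  have hl : 0 < l := by
    have : Nonempty (Fin n) := ⟨⟨0, hn1⟩⟩
    obtain ⟨y, hy⟩ : ∃ y : E n, y ≠ 0 := exists_ne 0
    have h4 := star_upper h y
    have h8 := star_lower h y
    have h6 : 0 < ‖y‖ := norm_pos_iff.2 hy
    have h9 := mul_pos hc h6
    by_contra h7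
    push Not at h7
    have := mul_nonpos_of_nonpos_of_nonneg h7 h6.le
    linarith
  set K₁ : ℝ := 3 * l with hK₁
  set K₂ : ℝ := 3 / c + 2 * l / c ^ 2 with hK₂
  have hK₁p : 0 < K₁ := by positivity
  have hK₂p : 0 < K₂ := by positivity
  have hlip : LipschitzWith (Real.toNNReal K₁) (psi N) := by
    refine LipschitzWith.of_dist_le_mul fun y z => ?_
    rw [dist_eq_norm, dist_eq_norm, Real.coe_toNNReal _ hK₁p.le]
    exact psi_sub h y z
  have hanti : AntilipschitzWith (Real.toNNReal K₂) (psi N) := by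
    refine AntilipschitzWith.of_le_mul_dist fun y z => ?_
    rw [dist_eq_norm, dist_eq_norm, Real.coe_toNNReal _ hK₂p.le]
    exact psi_anti h hl.le y z
  have hom := om_pos n hn1
  refine ⟨om n / K₁ ^ n, om n * K₂ ^ n, by positivity, by positivity, fun B hB hB0 => ?_⟩
  have hpol := polar n hn1 (fun _ => 1) measurable_const B hB hB0
  simp only [one_mul, lintegral_const, Measure.restrict_apply MeasurableSet.univ, univ_inter]
    at hpol
  set I := ∫⁻ s in B, ENNReal.ofReal (s ^ (n - 1)) with hI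
  set A : Set (E n) := {x | ‖x‖ ∈ B} with hA
  rw [preim_eq h B]
  constructor
  · have h1 : volume A ≤ ((Real.toNNReal K₁ : ℝ≥0) : ℝ≥0∞) ^ n * volume (psi N ⁻¹' A) := by
      have e1 : A = psi N '' (psi N ⁻¹' A) := by
        rw [image_preimage_eq_of_subset]
        intro x _
        exact psi_surj h x
      conv_lhs => rw [e1]
      exact vol_image_le hlip _
    rw [hpol] at h1
    have h2 : ((Real.toNNReal K₁ : ℝ≥0) : ℝ≥0∞) ^ n = ENNReal.ofReal (K₁ ^ n) := by
      rw [ENNReal.ofReal_pow hK₁p.le]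
      rfl
    rw [h2] at h1
    have h3 : ENNReal.ofReal (om n / K₁ ^ n) * I =
        (ENNReal.ofReal (K₁ ^ n))⁻¹ * (ENNReal.ofReal (om n) * I) := by
      rw [ENNReal.ofReal_div_of_pos (by positivity), ENNReal.div_eq_inv_mul, mul_assoc]
    rw [h3]
    refine (mul_le_mul_right h1 _).trans ?_
    rw [← mul_assoc, ENNReal.inv_mul_cancel, one_mul]
    · exact (ENNReal.ofReal_pos.2 (by positivity)).ne'
    · exact ENNReal.ofReal_ne_top
  · have h1 := vol_preimage_le hanti A
    rw [hpol] at h1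
    have h2 : ((Real.toNNReal K₂ : ℝ≥0) : ℝ≥0∞) ^ n = ENNReal.ofReal (K₂ ^ n) := by
      rw [ENNReal.ofReal_pow hK₂p.le]
      rfl
    rw [h2] at h1
    refine h1.trans (le_of_eq ?_)
    rw [ENNReal.ofReal_mul hom.le]
    ring

end Pool.Agent.Helper7.RQ
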